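import Pool.Agent.H964.LF.Stm

set_option autoImplicit false

namespace Pool.Agent.H16.LF

open MeasureTheory Pool.Agent.H964.LF
open scoped ENNReal

/-- number of cells -/
lemma cells_card {d : ℕ} (J ℓ m : ℕ) (k : Site d) :
    (cells J ℓ m k).card ≤ 2 ^ (d * (m - ℓ)) := by
  classical
  have hsub : cells J ℓ m k ⊆ Fintype.piFinset fun i =>
      Finset.Ico (2 ^ (m - ℓ) * (k i / 2 ^ m)) (2 ^ (m - ℓ) * (k i / 2 ^ m) + 2 ^ (m - ℓ)) := by
    intro q hq
    unfold cells at hq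
    rw [Finset.mem_filter] at hq
    rw [Fintype.mem_piFinset]
    intro i
    rw [Finset.mem_Ico, ← hq.2 i]
    have h1 := Nat.div_add_mod (q i) (2 ^ (m - ℓ))
    have h2 := Nat.mod_lt (q i) (show 0 < 2 ^ (m - ℓ) by positivity)
    constructor <;> omega
  refine (Finset.card_le_card hsub).trans ?_
  rw [Fintype.card_piFinset]
  simp [Nat.card_Ico, Finset.prod_const, ← pow_mul, mul_comm]

/-- the threshold -/
noncomputable def thr (d : ℕ) (ν : ℝ) (j0 i : ℕ) : ℝ :=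
  ν * 2 ^ (d * j0) * 2 ^ ((d - 2) * i) / 2 ^ (d * lv i)

lemma thr_pos (d : ℕ) (ν : ℝ) (hν : 0 < ν) (j0 i : ℕ) : 0 < thr d ν j0 i := by
  unfold thr; positivity

lemma lv_le (i : ℕ) : lv i ≤ i := by
  unfold lv
  rw [Nat.clog_le_iff_le_pow (by norm_num)]
  exact Nat.lt_two_pow_self

lemma le_two_lv (i : ℕ) : i + 1 ≤ 2 ^ lv i := by
  unfold lv
  exact Nat.le_pow_clog (by norm_num) _

lemma two_lv_le (i : ℕ) : 2 ^ lv i ≤ 2 * (i + 1) := by
  unfold lv
  rcases Nat.eq_zero_or_pos i with h | h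
  · subst h; simp
  · have h1 := Nat.pow_pred_clog_lt_self (b := 2) (by norm_num) (x := i + 1) (by omega)
    have h2 : 0 < Nat.clog 2 (i + 1) := Nat.clog_pos (by norm_num) (by omega)
    have h3 : Nat.clog 2 (i + 1) = (Nat.clog 2 (i + 1)).pred + 1 := (Nat.succ_pred_eq_of_pos h2).symm
    rw [h3, pow_succ]
    omega

/-- the union bound for one scale -/
lemma one_scale (hRN : S_RN1) {Ω : Type} [MeasurableSpace Ω] (μ : Measure Ω) (d J j0 i : ℕ)
    (B : Ω → Finset (Site d)) (ε : ℝ) (hε : 0 ≤ ε) (k : Site d) (ν : ℝ) (hν : 0 < ν)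
    (hB : ∀ I ⊆ Grid d J, μ {ω | I ⊆ B ω} ≤ ENNReal.ofReal (ε ^ I.card) * μ Set.univ)
    (hi : j0 + i + 1 ≤ J) :
    μ {ω | thr d ν j0 i < (nbad (B ω) J (lv i) (j0 + i + 1) k : ℝ)} ≤
      ENNReal.ofReal ((((cells J (lv i) (j0 + i + 1) k).card.choose (⌊thr d ν j0 i⌋₊ + 1) : ℕ) : ℝ) *
        ((4 ^ d * ε) ^ (2 ^ lv i)) ^ (⌊thr d ν j0 i⌋₊ + 1)) * μ Set.univ := by
  classical
  set r := ⌊thr d ν j0 i⌋₊ + 1 with hr
  set S := cells J (lv i) (j0 + i + 1) k with hS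
  have hsub : {ω | thr d ν j0 i < (nbad (B ω) J (lv i) (j0 + i + 1) k : ℝ)} ⊆
      ⋃ M ∈ Finset.powersetCard r S, {ω | ∀ q ∈ M, bd (B ω) (lv i) q} := by
    intro ω hω
    rw [Set.mem_ofPred_eq] at hω
    have h1 : r ≤ nbad (B ω) J (lv i) (j0 + i + 1) k := by
      rw [hr]
      exact (Nat.floor_lt (thr_pos d ν hν j0 i).le).2 hω
    unfold nbad at h1
    obtain ⟨M, hM, hMc⟩ := Finset.exists_subset_card_eq h1
    rw [Set.mem_iUnion₂]
    refine ⟨M, ?_, ?_⟩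
    · rw [Finset.mem_powersetCard]
      exact ⟨fun q hq => (Finset.mem_filter.1 (hM hq)).1, hMc⟩
    · intro q hq
      exact (Finset.mem_filter.1 (hM hq)).2
  have hlv : lv i ≤ J := (lv_le i).trans (by omega)
  refine (measure_mono hsub).trans ((measure_biUnion_finset_le _ _).trans ?_)
  have hb : ∀ M ∈ Finset.powersetCard r S, μ {ω | ∀ q ∈ M, bd (B ω) (lv i) q} ≤
      ENNReal.ofReal (((4 ^ d * ε) ^ (2 ^ lv i)) ^ r) * μ Set.univ := by
    intro M hM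
    rw [Finset.mem_powersetCard] at hM
    have h := hRN Ω μ d J B ε hε hB (lv i) hlv M (fun q hq => by
      have := hM.1 hq
      rw [hS] at this
      unfold cells at this
      exact (Finset.mem_filter.1 this).1)
    rw [hM.2] at h
    exact h
  refine (Finset.sum_le_sum hb).trans ?_
  rw [Finset.sum_const, Finset.card_powersetCard, nsmul_eq_mul, ← mul_assoc,
    ENNReal.ofReal_mul (by positivity), ENNReal.ofReal_natCast]

/-- numerical bound for one scale -/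
lemma num_scale (d : ℕ) (ν η : ℝ) (hν : 0 < ν) (hη : 0 < η) (hη1 : η ≤ 1)
    (hη2 : Real.exp 1 * 2 ^ d / ν * (4 * η) ≤ Real.exp (-2)) (hη3 : 4 * η ≤ Real.exp (-2))
    (j0 i N r : ℕ) (hN : N ≤ 2 ^ (d * (j0 + i + 1 - lv i))) (hd : 3 ≤ d) (hr0 : 1 ≤ r)
    (hr : thr d ν j0 i ≤ r) :
    ((N.choose r : ℕ) : ℝ) * (η ^ (2 ^ lv i)) ^ r ≤ Real.exp (-(2 * (i + 1) * r)) := by
  have hlv := lv_le i
  have hrR : (0 : ℝ) < r := by exact_mod_cast hr0
  -- `N / r ≤ 2^d 4^i / ν`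
  have hNr : (N : ℝ) / r ≤ 2 ^ d / ν * 4 ^ i := by
    have h1 : (N : ℝ) ≤ 2 ^ (d * (j0 + i + 1 - lv i)) := by exact_mod_cast hN
    rw [div_le_iff₀ hrR]
    have h2 : (2 : ℝ) ^ (d * (j0 + i + 1 - lv i)) = 2 ^ d / ν * 4 ^ i * thr d ν j0 i := by
      unfold thr
      have e1 : (4 : ℝ) ^ i = 2 ^ (2 * i) := by rw [pow_mul]; norm_num
      rw [e1]
      have e2 : (2 : ℝ) ^ (d * (j0 + i + 1 - lv i)) * 2 ^ (d * lv i)
          = 2 ^ d * 2 ^ (2 * i) * 2 ^ (d * j0) * 2 ^ ((d - 2) * i) := by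
        rw [← pow_add, ← pow_add, ← pow_add, ← pow_add]
        congr 1
        obtain ⟨e, rfl⟩ : ∃ e, d = e + 2 := ⟨d - 2, by omega⟩
        obtain ⟨f, hf⟩ : ∃ f, i = lv i + f := ⟨i - lv i, by omega⟩
        have e3 : j0 + i + 1 - lv i = j0 + f + 1 := by omega
        rw [e3, Nat.add_sub_cancel]
        nlinarith [hf]
      have e4 : (2 : ℝ) ^ (d * lv i) ≠ 0 := by positivity
      field_simp
      linarith [e2]
    calc (N : ℝ) ≤ 2 ^ (d * (j0 + i + 1 - lv i)) := h1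
      _ = 2 ^ d / ν * 4 ^ i * thr d ν j0 i := h2
      _ ≤ 2 ^ d / ν * 4 ^ i * r := mul_le_mul_of_nonneg_left hr (by positivity)
  -- the binomial coefficient
  have hch : ((N.choose r : ℕ) : ℝ) ≤ (Real.exp 1 * (N / r)) ^ r := by
    have h1 : ((N.choose r : ℕ) : ℝ) ≤ (N : ℝ) ^ r / (r.factorial : ℝ) :=
      Nat.choose_le_pow_div r N
    have h2 : (r : ℝ) ^ r / (r.factorial : ℝ) ≤ Real.exp r :=
      Real.pow_div_factorial_le_exp (r : ℝ) hrR.le r
    refine h1.trans ?_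
    rw [mul_pow, div_pow, ← Real.exp_nat_mul, mul_one]
    have h3 : (N : ℝ) ^ r / (r.factorial : ℝ)
        = (r : ℝ) ^ r / (r.factorial : ℝ) * ((N : ℝ) ^ r / (r : ℝ) ^ r) := by
      have : (r : ℝ) ^ r ≠ 0 := by positivity
      field_simp
    rw [h3]
    exact mul_le_mul_of_nonneg_right h2 (by positivity)
  -- the power of `η`
  have hηp : η ^ (2 ^ lv i) ≤ η ^ (i + 1) := pow_le_pow_of_le_one hη.le hη1 (le_two_lv i)
  have hbase : Real.exp 1 * ((N : ℝ) / r) * η ^ (2 ^ lv i) ≤ Real.exp (-2) ^ (i + 1) := by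
    have h1 : Real.exp 1 * ((N : ℝ) / r) * η ^ (2 ^ lv i)
        ≤ Real.exp 1 * (2 ^ d / ν * 4 ^ i) * η ^ (i + 1) := by
      refine mul_le_mul ?_ hηp (by positivity) (by positivity)
      exact mul_le_mul_of_nonneg_left hNr (Real.exp_pos _).le
    refine h1.trans ?_
    have h2 : Real.exp 1 * (2 ^ d / ν * 4 ^ i) * η ^ (i + 1)
        = (Real.exp 1 * 2 ^ d / ν * (η)) * (4 * η) ^ i := by
      rw [mul_pow, pow_succ]; ring
    rw [h2, pow_succ, mul_comm (Real.exp (-2) ^ i)]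
    refine mul_le_mul ?_ (pow_le_pow_left₀ (by positivity) hη3 i) (by positivity)
      (Real.exp_pos _).le
    refine le_trans ?_ hη2
    apply mul_le_mul_of_nonneg_left _ (by positivity)
    linarith
  calc ((N.choose r : ℕ) : ℝ) * (η ^ (2 ^ lv i)) ^ r
      ≤ (Real.exp 1 * (N / r)) ^ r * (η ^ (2 ^ lv i)) ^ r :=
        mul_le_mul_of_nonneg_right hch (by positivity)
    _ = (Real.exp 1 * ((N : ℝ) / r) * η ^ (2 ^ lv i)) ^ r := by rw [← mul_pow]
    _ ≤ (Real.exp (-2) ^ (i + 1)) ^ r := pow_le_pow_left₀ (by positivity) hbase r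
    _ = Real.exp (-(2 * (i + 1) * r)) := by
        rw [← pow_mul, ← Real.exp_nat_mul]
        congr 1
        push_cast
        ring

/-- the thresholds are large -/
lemma thr_low (d : ℕ) (ν : ℝ) (hν : 0 < ν) (hd : 3 ≤ d) (j0 i : ℕ) :
    ν / (4 ^ d * ((d - 1).factorial : ℝ)) * 2 ^ (d * j0) ≤ (i + 1) * thr d ν j0 i := by
  have h1 : ((i : ℝ) + 1) ^ (d - 1) ≤ (d - 1).factorial * 2 ^ (i + 1) * 2 ^ (d - 1) := by
    have h2 : (((i : ℝ) + 1) * Real.log 2) ^ (d - 1) / ((d - 1).factorial : ℝ)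
        ≤ Real.exp (((i : ℝ) + 1) * Real.log 2) :=
      Real.pow_div_factorial_le_exp _ (by positivity) _
    have h3 : Real.exp (((i : ℝ) + 1) * Real.log 2) = 2 ^ (i + 1) := by
      have : ((i : ℝ) + 1) * Real.log 2 = ((i + 1 : ℕ) : ℝ) * Real.log 2 := by push_cast; ring
      rw [this, Real.exp_nat_mul, Real.exp_log (by norm_num)]
    rw [h3, div_le_iff₀ (by positivity), mul_pow] at h2
    have h4 : (1 / 2 : ℝ) ^ (d - 1) ≤ Real.log 2 ^ (d - 1) :=
      pow_le_pow_left₀ (by norm_num) (by linarith [Real.log_two_gt_d9]) _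
    have h5 : ((i : ℝ) + 1) ^ (d - 1) * (1 / 2) ^ (d - 1) ≤ 2 ^ (i + 1) * ((d - 1).factorial : ℝ) :=
      (mul_le_mul_of_nonneg_left h4 (by positivity)).trans h2
    have h6 : ((i : ℝ) + 1) ^ (d - 1) = ((i : ℝ) + 1) ^ (d - 1) * (1 / 2) ^ (d - 1) * 2 ^ (d - 1) := by
      rw [mul_assoc, ← mul_pow]; norm_num
    rw [h6]
    have := mul_le_mul_of_nonneg_right h5 (show (0 : ℝ) ≤ 2 ^ (d - 1) by positivity)
    linarith
  -- `2^(d lv i) ≤ (2 (i+1))^d`
  have h7 : (2 : ℝ) ^ (d * lv i) ≤ 2 ^ d * ((i : ℝ) + 1) ^ d := by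
    have : (2 : ℝ) ^ lv i ≤ 2 * ((i : ℝ) + 1) := by exact_mod_cast two_lv_le i
    calc (2 : ℝ) ^ (d * lv i) = (2 ^ lv i) ^ d := by rw [← pow_mul, mul_comm]
      _ ≤ (2 * ((i : ℝ) + 1)) ^ d := pow_le_pow_left₀ (by positivity) this d
      _ = 2 ^ d * ((i : ℝ) + 1) ^ d := by rw [mul_pow]
  -- `(i+1)^d ≤ (i+1) (d-1)! 2^(i+1) 2^(d-1)`
  have h8 : ((i : ℝ) + 1) ^ d ≤ (i + 1) * ((d - 1).factorial * 2 ^ (i + 1) * 2 ^ (d - 1)) := by
    have e : d = (d - 1) + 1 := by omega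
    conv_lhs => rw [e, pow_succ, mul_comm]
    exact mul_le_mul_of_nonneg_left h1 (by positivity)
  have h9 : (2 : ℝ) ^ i ≤ 2 ^ ((d - 2) * i) :=
    pow_le_pow_right₀ (by norm_num) (by nlinarith [show 1 ≤ d - 2 by omega])
  unfold thr
  rw [div_mul_eq_mul_div, ← mul_div_assoc, div_le_div_iff₀ (by positivity) (by positivity)]
  have e4 : (4 : ℝ) ^ d = 2 ^ d * (2 * 2 ^ (d - 1)) := by
    have : (2 : ℝ) * 2 ^ (d - 1) = 2 ^ d := by
      rw [← pow_succ']; congr 1; omega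
    rw [this, ← mul_pow]; norm_num
  have h10 : (2 : ℝ) ^ (d * lv i) ≤ ((i : ℝ) + 1) * 2 ^ i * (4 ^ d * (d - 1).factorial) := by
    refine h7.trans ((mul_le_mul_of_nonneg_left h8 (by positivity)).trans (le_of_eq ?_))
    rw [e4, pow_succ]; ring
  have h11 : (2 : ℝ) ^ (d * lv i) ≤ ((i : ℝ) + 1) * 2 ^ ((d - 2) * i) * (4 ^ d * (d - 1).factorial) := by
    refine h10.trans ?_
    apply mul_le_mul_of_nonneg_right _ (by positivity)
    exact mul_le_mul_of_nonneg_left h9 (by positivity)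
  have h12 := mul_le_mul_of_nonneg_left h11 (show (0 : ℝ) ≤ ν * 2 ^ (d * j0) by positivity)
  refine h12.trans (le_of_eq ?_)
  ring

theorem t_RENO : S_RN1 → S_RENO := by
  intro hRN d ν hd hν
  set m0 : ℝ := max 1 (Real.exp 1 * 2 ^ d / ν) with hm0
  have hm1 : 1 ≤ m0 := le_max_left _ _
  have hm2 : Real.exp 1 * 2 ^ d / ν ≤ m0 := le_max_right _ _
  set η : ℝ := Real.exp (-2) / (4 * m0) with hη
  have hη0 : 0 < η := by positivity
  have hη3 : 4 * η ≤ Real.exp (-2) := by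
    have : 4 * η = Real.exp (-2) / m0 := by rw [hη]; field_simp
    rw [this]
    exact div_le_self (Real.exp_pos _).le hm1
  have hη1 : η ≤ 1 := by
    have : Real.exp (-2) ≤ 1 := Real.exp_le_one_iff.2 (by norm_num)
    linarith
  have hη2 : Real.exp 1 * 2 ^ d / ν * (4 * η) ≤ Real.exp (-2) := by
    have h1 : m0 * (4 * η) = Real.exp (-2) := by rw [hη]; field_simp
    rw [← h1]
    exact mul_le_mul_of_nonneg_right hm2 (by positivity)
  refine ⟨η / 4 ^ d, ν / (4 ^ d * ((d - 1).factorial : ℝ)), by positivity, by positivity, ?_⟩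
  intro Ω _ μ J j0 B k hB hk hj
  set c : ℝ := ν / (4 ^ d * ((d - 1).factorial : ℝ)) with hc
  have hεη : (4 : ℝ) ^ d * (η / 4 ^ d) = η := by field_simp
  have hsub : {ω | ¬ Hc ν (B ω) J j0 k} ⊆ ⋃ i ∈ Finset.range J,
      {ω | j0 + i + 1 ≤ J ∧ thr d ν j0 i < (nbad (B ω) J (lv i) (j0 + i + 1) k : ℝ)} := by
    intro ω hω
    rw [Set.mem_ofPred_eq] at hω
    unfold Hc at hω
    push Not at hω
    obtain ⟨i, hi, h⟩ := hω
    rw [Set.mem_iUnion₂]
    exact ⟨i, Finset.mem_range.2 (by omega), hi, h⟩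
  have hone : ∀ i ∈ Finset.range J,
      μ {ω | j0 + i + 1 ≤ J ∧ thr d ν j0 i < (nbad (B ω) J (lv i) (j0 + i + 1) k : ℝ)} ≤
      ENNReal.ofReal ((1 / 2) ^ i * Real.exp (-(c * 2 ^ (d * j0)))) * μ Set.univ := by
    intro i _
    by_cases hi : j0 + i + 1 ≤ J
    · have h1 := one_scale hRN μ d J j0 i B (η / 4 ^ d) (by positivity) k ν hν hB hi
      have h2 : {ω | j0 + i + 1 ≤ J ∧ thr d ν j0 i < (nbad (B ω) J (lv i) (j0 + i + 1) k : ℝ)}
          ⊆ {ω | thr d ν j0 i < (nbad (B ω) J (lv i) (j0 + i + 1) k : ℝ)} := fun ω h => h.2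
      refine (measure_mono h2).trans (h1.trans ?_)
      rw [hεη]
      refine mul_le_mul_left ?_ _
      refine ENNReal.ofReal_le_ofReal ?_
      have h3 := num_scale d ν η hν hη0 hη1 hη2 hη3 j0 i
        (cells J (lv i) (j0 + i + 1) k).card (⌊thr d ν j0 i⌋₊ + 1)
        (cells_card J (lv i) (j0 + i + 1) k) hd (by omega)
        (by push_cast; exact (Nat.lt_floor_add_one _).le)
      refine h3.trans ?_
      have h4 : ((1 : ℝ) / 2) ^ i = Real.exp (-(i * Real.log 2)) := by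
        rw [Real.exp_neg, Real.exp_nat_mul, Real.exp_log (by norm_num), one_div, inv_pow]
      rw [h4, ← Real.exp_add, Real.exp_le_exp]
      have h5 := thr_low d ν hν hd j0 i
      rw [← hc] at h5
      have h6 : thr d ν j0 i ≤ ((⌊thr d ν j0 i⌋₊ + 1 : ℕ) : ℝ) := by
        push_cast; exact (Nat.lt_floor_add_one _).le
      have h7 : (1 : ℝ) ≤ ((⌊thr d ν j0 i⌋₊ + 1 : ℕ) : ℝ) := by push_cast; linarith [Nat.cast_nonneg (α := ℝ) ⌊thr d ν j0 i⌋₊]
      have h8 : Real.log 2 ≤ 1 := by linarith [Real.log_two_lt_d9]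
      have hi0 : (0 : ℝ) ≤ i := Nat.cast_nonneg i
      have h9 := mul_le_mul_of_nonneg_left h6 (show (0 : ℝ) ≤ (i : ℝ) + 1 by linarith)
      have h10 := mul_le_mul_of_nonneg_left h7 (show (0 : ℝ) ≤ (i : ℝ) + 1 by linarith)
      have h11 := mul_le_mul_of_nonneg_left h8 hi0
      linarith
    · have : {ω | j0 + i + 1 ≤ J ∧ thr d ν j0 i < (nbad (B ω) J (lv i) (j0 + i + 1) k : ℝ)} = ∅ := by
        ext ω; simp [hi]
      rw [this]; simp
  refine (measure_mono hsub).trans ((measure_biUnion_finset_le _ _).trans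
    ((Finset.sum_le_sum hone).trans ?_))
  rw [← Finset.sum_mul, ← ENNReal.ofReal_sum_of_nonneg (fun i _ => by positivity),
    ← Finset.sum_mul]
  refine mul_le_mul_left ?_ _
  refine ENNReal.ofReal_le_ofReal ?_
  apply mul_le_mul_of_nonneg_right _ (Real.exp_pos _).le
  have h : ∑ i ∈ Finset.range J, ((1 : ℝ) / 2) ^ i ≤ ∑' i : ℕ, ((1 : ℝ) / 2) ^ i :=
    Summable.sum_le_tsum _ (fun i _ => by positivity) summable_geometric_two
  rwa [tsum_geometric_two] at h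

end Pool.Agent.H16.LF
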